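import Mathlib
import Pool.Agent.W232.FC.Fin2

/-!
# The Fermat-Catalan equation has `O (N ^ ε)` solutions up to `N`, also with `S`-unit coefficients

The Fermat-Catalan conjecture says that `x ^ p + y ^ q = z ^ r` has only finitely many coprime
solutions (counted by their triples of values), where all three exponents vary and
`1 / p + 1 / q + 1 / r < 1`.  We prove that for every `ε > 0` the number of all solutions with
`z ^ r ≤ N` is `O (N ^ ε)`.  The same is proved with `S`-unit coefficients: for every finite set `S`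
of primes and every `ε > 0` the number of the equations `A + B = C` between coprime integers up to
`N`, in which each of `A`, `B`, `C` is a perfect power times an integer composed of primes of `S`,
with exponents of the three powers satisfying `1 / p + 1 / q + 1 / r < 1`, is `O (N ^ ε)`.

The trivial bound, from counting the two powers with the largest exponents, is only `N ^ (7 / 12)`
(from the exponents `3, 3, 4`), or `N ^ (1 / 3 + ε)` if one uses the theorem of Darmon and Granville,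
because of the exponents `(2, 3, n)` and `(3, 3, n)`, `n → ∞`.

The only hypothesis is the published theorem `DarmonGranville` (H. Darmon, A. Granville, On the
equations `z ^ m = F (x, y)` and `A x ^ p + B y ^ q = C z ^ r`, 1995): for FIXED exponents with
`1 / p + 1 / q + 1 / r < 1` and FIXED nonzero coefficients there are only finitely many solutions with
`gcd (x, y, z) = 1`.  That theorem is ineffective and not uniform in the exponents or coefficients.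

The proof.  By the theorem of `Pool.Agent.W232.FC` (all exponents at least `2`, no coprimality; its
versions are handed in under other problems, see `MP_2738db_nt`, `MP_be1fae_nt`, `MP_f0c97c_nt`) there
is `δ > 0` such that at most `N ^ ε` solutions up to `N` have a base which is at most `N ^ δ`, the
coefficients having radical at most `N ^ δ`.  Let `R ≥ 1 / δ`.  A base whose exponent is at least `R`
is at most `N ^ δ`; so only solutions whose three exponents are less than `R` remain.  Moving perfect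
powers from the coefficients into the bases one is left with finitely many coefficients and
exponents, and the theorem of Darmon and Granville applies to each of them.

In the problem's own setting the exponents are primes with `1 / p + 1 / q + 1 / r ≤ 1`; the case of
equality `p = q = r = 3` has no solutions (Euler).
-/

namespace Pool.Agent.Results.MP_509488_nt.SolutionCount

open Finset

/-- The theorem of Darmon and Granville: for fixed exponents `p`, `q`, `r` with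
`1 / p + 1 / q + 1 / r < 1` and fixed nonzero integers `a`, `b`, `c` only finitely many positive
integers `x`, `y`, `z` with `gcd (x, y, z) = 1` satisfy `a x ^ p + b y ^ q + c z ^ r = 0`. -/
def DarmonGranville : Prop :=
  ∀ a b c : ℤ, a ≠ 0 → b ≠ 0 → c ≠ 0 → ∀ p q r : ℕ, 2 ≤ p → 2 ≤ q → 2 ≤ r →
    (1 : ℚ) / p + 1 / q + 1 / r < 1 →
    {v : ℕ × ℕ × ℕ | 0 < v.1 ∧ 0 < v.2.1 ∧ 0 < v.2.2 ∧ Nat.gcd v.1 (Nat.gcd v.2.1 v.2.2) = 1 ∧
      a * (v.1 : ℤ) ^ p + b * (v.2.1 : ℤ) ^ q + c * (v.2.2 : ℤ) ^ r = 0}.Finite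

/-- The set of the problem, up to `N`: the triples `(x ^ p, y ^ q, z ^ r)` with `x ^ p + y ^ q =
z ^ r ≤ N`, where `x`, `y`, `z` are coprime positive integers and `p`, `q`, `r` are primes with
`1 / p + 1 / q + 1 / r ≤ 1`. -/
def FermatCatalan (N : ℕ) : Set (ℕ × ℕ × ℕ) :=
  {v | v.2.2 ≤ N ∧ ∃ x y z p q r : ℕ, 0 < x ∧ 0 < y ∧ 0 < z ∧ Nat.gcd x (Nat.gcd y z) = 1 ∧
      p.Prime ∧ q.Prime ∧ r.Prime ∧ (1 : ℚ) / p + 1 / q + 1 / r ≤ 1 ∧
      x ^ p + y ^ q = z ^ r ∧ v = (x ^ p, y ^ q, z ^ r)}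

/-- The nonzero integer `n` is `u * x ^ p` with an integer `x` and an integer `u` all of whose prime
divisors are in `S`. -/
def SPower (S : Finset ℕ) (p : ℕ) (n : ℤ) : Prop :=
  n ≠ 0 ∧ ∃ u x : ℤ, n = u * x ^ p ∧ ∀ ℓ : ℕ, ℓ.Prime → (ℓ : ℤ) ∣ u → ℓ ∈ S

/-- The triples `(A, B, C)` of nonzero coprime integers with absolute values at most `N` and
`A + B = C`, such that for some `p, q, r ≥ 2` with `1 / p + 1 / q + 1 / r < 1` (which may depend on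
the triple) `A`, `B`, `C` are a `p`-th, a `q`-th, an `r`-th power, each times an integer composed of
primes of `S`. -/
def Solutions (S : Finset ℕ) (N : ℕ) : Set (ℤ × ℤ × ℤ) :=
  {t | t.1 + t.2.1 = t.2.2 ∧ |t.1| ≤ N ∧ |t.2.1| ≤ N ∧ |t.2.2| ≤ N ∧ IsCoprime t.1 t.2.1 ∧
    ∃ p q r : ℕ, 2 ≤ p ∧ 2 ≤ q ∧ 2 ≤ r ∧ (1 : ℚ) / p + 1 / q + 1 / r < 1 ∧
      SPower S p t.1 ∧ SPower S q t.2.1 ∧ SPower S r t.2.2}

/-- power-free decomposition -/
theorem nat_decomp (S : Finset ℕ) (p : ℕ) (hp : 1 ≤ p) (hS : ∀ ℓ ∈ S, 1 ≤ ℓ) (n : ℕ) (hn : n ≠ 0)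
    (h : ∀ ℓ : ℕ, ℓ.Prime → ℓ ∣ n → ℓ ∈ S) :
    ∃ u₀ u₁ : ℕ, 1 ≤ u₀ ∧ 1 ≤ u₁ ∧ n = u₀ * u₁ ^ p ∧ u₀ ≤ (∏ ℓ ∈ S, ℓ) ^ p := by
  refine ⟨∏ ℓ ∈ n.primeFactors, ℓ ^ (n.factorization ℓ % p),
    ∏ ℓ ∈ n.primeFactors, ℓ ^ (n.factorization ℓ / p), ?_, ?_, ?_, ?_⟩
  · exact Nat.one_le_iff_ne_zero.2 (Finset.prod_ne_zero_iff.2 fun ℓ hℓ =>
      pow_ne_zero _ (Nat.prime_of_mem_primeFactors hℓ).ne_zero)
  · exact Nat.one_le_iff_ne_zero.2 (Finset.prod_ne_zero_iff.2 fun ℓ hℓ =>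
      pow_ne_zero _ (Nat.prime_of_mem_primeFactors hℓ).ne_zero)
  · rw [← Finset.prod_pow, ← Finset.prod_mul_distrib]
    conv_lhs => rw [← Nat.prod_factorization_pow_eq_self hn]
    rw [Finsupp.prod, Nat.support_factorization]
    refine Finset.prod_congr rfl fun ℓ _ => ?_
    rw [← pow_mul, ← pow_add]
    congr 1
    rw [mul_comm (n.factorization ℓ / p) p]
    exact (Nat.mod_add_div _ _).symm
  · have h1 : n.primeFactors ⊆ S := fun ℓ hℓ =>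
      h ℓ (Nat.prime_of_mem_primeFactors hℓ) (Nat.dvd_of_mem_primeFactors hℓ)
    calc ∏ ℓ ∈ n.primeFactors, ℓ ^ (n.factorization ℓ % p)
        ≤ ∏ ℓ ∈ n.primeFactors, ℓ ^ p := by
          refine Finset.prod_le_prod' fun ℓ hℓ => ?_
          exact Nat.pow_le_pow_right (Nat.prime_of_mem_primeFactors hℓ).pos
            (Nat.mod_lt _ (by omega)).le
      _ ≤ ∏ ℓ ∈ S, ℓ ^ p := by
          refine Finset.prod_le_prod_of_subset_of_one_le' h1 fun ℓ hℓ _ => ?_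
          exact Nat.one_le_pow _ _ (hS ℓ hℓ)
      _ = (∏ ℓ ∈ S, ℓ) ^ p := by rw [Finset.prod_pow]

theorem spower_decomp {S : Finset ℕ} {p : ℕ} {n : ℤ} (hp : 1 ≤ p) (hS : ∀ ℓ ∈ S, 1 ≤ ℓ)
    (h : SPower S p n) : ∃ (a : ℤ) (x : ℕ), a ≠ 0 ∧ 0 < x ∧ n = a * (x : ℤ) ^ p ∧
      a.natAbs ≤ (∏ ℓ ∈ S, ℓ) ^ p := by
  obtain ⟨hn, u, x, rfl, hu⟩ := h
  have hu0 : u ≠ 0 := by rintro rfl; simp at hn
  have hx0 : x ≠ 0 := by
    rintro rfl
    apply hn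
    rw [zero_pow (by omega), mul_zero]
  obtain ⟨u₀, u₁, h0, h1, h2, h3⟩ := nat_decomp S p hp hS u.natAbs (Int.natAbs_ne_zero.2 hu0)
    (fun ℓ hℓ hd => hu ℓ hℓ (Int.natCast_dvd.2 hd))
  refine ⟨(u * x ^ p).sign * u₀, u₁ * x.natAbs, ?_, ?_, ?_, ?_⟩
  · exact mul_ne_zero (fun h0 => hn (Int.sign_eq_zero_iff_zero.1 h0)) (by exact_mod_cast (by omega : u₀ ≠ 0))
  · exact Nat.mul_pos (by omega) (Int.natAbs_pos.2 hx0)
  · have h4 : (((u * x ^ p).natAbs : ℕ) : ℤ) = (u₀ : ℤ) * ((u₁ * x.natAbs : ℕ) : ℤ) ^ p := by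
      rw [Int.natAbs_mul, Int.natAbs_pow, h2]
      push_cast
      ring
    calc u * x ^ p = (u * x ^ p).sign * (((u * x ^ p).natAbs : ℕ) : ℤ) :=
          (Int.sign_mul_natAbs _).symm
      _ = _ := by rw [h4]; ring
  · rw [Int.natAbs_mul, Int.natAbs_sign_of_ne_zero hn, one_mul, Int.natAbs_natCast]
    exact h3

theorem finite_bounded (hDG : DarmonGranville) (S : Finset ℕ) (hS : ∀ ℓ ∈ S, 1 ≤ ℓ) (R : ℕ) :
    {t : ℤ × ℤ × ℤ | t.1 + t.2.1 = t.2.2 ∧ IsCoprime t.1 t.2.1 ∧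
    ∃ p q r : ℕ, 2 ≤ p ∧ 2 ≤ q ∧ 2 ≤ r ∧ (1 : ℚ) / p + 1 / q + 1 / r < 1 ∧
      SPower S p t.1 ∧ SPower S q t.2.1 ∧ SPower S r t.2.2 ∧ p < R ∧ q < R ∧ r < R}.Finite := by
  classical
  let B : ℤ := (∏ ℓ ∈ S, ℓ : ℕ) ^ R
  have hP1 : 1 ≤ ∏ ℓ ∈ S, ℓ := Nat.one_le_iff_ne_zero.2 (Finset.prod_ne_zero_iff.2 fun ℓ hℓ => by
    have := hS ℓ hℓ
    omega)
  have h1 : (⋃ w ∈ (Finset.range R ×ˢ Finset.range R ×ˢ Finset.range R : Finset (ℕ × ℕ × ℕ)),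
      ⋃ c ∈ (Finset.Icc (-B) B ×ˢ Finset.Icc (-B) B ×ˢ Finset.Icc (-B) B : Finset (ℤ × ℤ × ℤ)),
      (fun u : ℕ × ℕ × ℕ => (c.1 * (u.1 : ℤ) ^ w.1, c.2.1 * (u.2.1 : ℤ) ^ w.2.1,
        -(c.2.2 * (u.2.2 : ℤ) ^ w.2.2))) ''
      {u : ℕ × ℕ × ℕ | (2 ≤ w.1 ∧ 2 ≤ w.2.1 ∧ 2 ≤ w.2.2 ∧
          (1 : ℚ) / w.1 + 1 / w.2.1 + 1 / w.2.2 < 1 ∧ c.1 ≠ 0 ∧ c.2.1 ≠ 0 ∧ c.2.2 ≠ 0) ∧
        0 < u.1 ∧ 0 < u.2.1 ∧ 0 < u.2.2 ∧ Nat.gcd u.1 (Nat.gcd u.2.1 u.2.2) = 1 ∧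
        c.1 * (u.1 : ℤ) ^ w.1 + c.2.1 * (u.2.1 : ℤ) ^ w.2.1 +
          c.2.2 * (u.2.2 : ℤ) ^ w.2.2 = 0}).Finite := by
    refine Set.Finite.biUnion (Finset.finite_toSet _) fun w _ =>
      Set.Finite.biUnion (Finset.finite_toSet _) fun c _ => Set.Finite.image _ ?_
    by_cases h : 2 ≤ w.1 ∧ 2 ≤ w.2.1 ∧ 2 ≤ w.2.2 ∧ (1 : ℚ) / w.1 + 1 / w.2.1 + 1 / w.2.2 < 1 ∧
        c.1 ≠ 0 ∧ c.2.1 ≠ 0 ∧ c.2.2 ≠ 0
    · refine (hDG c.1 c.2.1 c.2.2 h.2.2.2.2.1 h.2.2.2.2.2.1 h.2.2.2.2.2.2 w.1 w.2.1 w.2.2 h.1 h.2.1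
        h.2.2.1 h.2.2.2.1).subset ?_
      rintro u ⟨-, hu⟩
      exact hu
    · convert Set.finite_empty
      ext u
      simp only [Set.mem_ofPred_eq, Set.mem_empty_iff_false, iff_false]
      exact fun hu => h hu.1
  refine h1.subset ?_
  rintro ⟨A, B', C⟩ ⟨hsum, hcop, p, q, r, hp, hq, hr, hpqr, hA, hB, hC, hpR, hqR, hrR⟩
  simp only at hsum hcop hA hB hC
  obtain ⟨a, x, ha, hx, rfl, ha'⟩ := spower_decomp (by omega) hS hA
  obtain ⟨b, y, hb, hy, rfl, hb'⟩ := spower_decomp (by omega) hS hB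
  obtain ⟨c, z, hc, hz, rfl, hc'⟩ := spower_decomp (by omega) hS hC
  have hbd : ∀ (d : ℤ) (k : ℕ), k < R → d.natAbs ≤ (∏ ℓ ∈ S, ℓ) ^ k → -B ≤ d ∧ d ≤ B := by
    intro d k hk hd
    have h2 : (d.natAbs : ℤ) ≤ B := by
      have h3 : d.natAbs ≤ (∏ ℓ ∈ S, ℓ) ^ R := hd.trans (Nat.pow_le_pow_right hP1 hk.le)
      simp only [B]
      exact_mod_cast h3
    omega
  simp only [Set.mem_iUnion]
  refine ⟨(p, q, r), by simp [hpR, hqR, hrR], (a, b, -c), ?_, (x, y, z),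
    ⟨⟨hp, hq, hr, hpqr, ha, hb, neg_ne_zero.2 hc⟩, hx, hy, hz, ?_, ?_⟩, ?_⟩
  · have e1 := hbd a p hpR ha'
    have e2 := hbd b q hqR hb'
    have e3 := hbd c r hrR hc'
    simp only [Finset.mem_product, Finset.mem_Icc]
    omega
  · by_contra hg
    obtain ⟨ℓ, hℓ, hd⟩ := Nat.exists_prime_and_dvd hg
    have d1 : ℓ ∣ x := hd.trans (Nat.gcd_dvd_left _ _)
    have d2 : ℓ ∣ y := (hd.trans (Nat.gcd_dvd_right _ _)).trans (Nat.gcd_dvd_left _ _)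
    have e1 : (ℓ : ℤ) ∣ a * (x : ℤ) ^ p :=
      Dvd.dvd.mul_left (dvd_pow (Int.natCast_dvd_natCast.2 d1) (by omega)) _
    have e2 : (ℓ : ℤ) ∣ b * (y : ℤ) ^ q :=
      Dvd.dvd.mul_left (dvd_pow (Int.natCast_dvd_natCast.2 d2) (by omega)) _
    have h2 := hcop.isUnit_of_dvd' e1 e2
    rw [Int.isUnit_iff] at h2
    have h3 := hℓ.two_le
    omega
  · change a * (x : ℤ) ^ p + b * (y : ℤ) ^ q + -c * (z : ℤ) ^ r = 0
    rw [hsum]
    ring
  · simp only [neg_mul, neg_neg]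


theorem base_le {x : ℤ} {u : ℤ} {p R N : ℕ} (hR : 1 ≤ R) (hp : R ≤ p) (hn : u * x ^ p ≠ 0)
    (h : |u * x ^ p| ≤ N) : (x.natAbs : ℝ) ≤ (N : ℝ) ^ ((1 : ℝ) / R) := by
  have hu0 : u ≠ 0 := by rintro rfl; simp at hn
  have hx0 : x ≠ 0 := by
    rintro rfl
    apply hn
    rw [zero_pow (by omega), mul_zero]
  have hx1 : 1 ≤ x.natAbs := Int.natAbs_pos.2 hx0
  have hu1 : 1 ≤ u.natAbs := Int.natAbs_pos.2 hu0
  have h0 : (u * x ^ p).natAbs ≤ N := by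
    rw [Int.abs_eq_natAbs] at h
    exact_mod_cast h
  rw [Int.natAbs_mul, Int.natAbs_pow] at h0
  have h1 : x.natAbs ^ R ≤ N :=
    (Nat.pow_le_pow_right hx1 hp).trans ((Nat.le_mul_of_pos_left _ hu1).trans h0)
  have h2 : ((x.natAbs : ℝ) ^ R) ≤ N := by exact_mod_cast h1
  have h3 : (x.natAbs : ℝ) = ((x.natAbs : ℝ) ^ R) ^ ((1 : ℝ) / R) := by
    rw [← Real.rpow_natCast, ← Real.rpow_mul (by positivity)]
    rw [mul_one_div_cancel (by positivity), Real.rpow_one]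
  rw [h3]
  exact Real.rpow_le_rpow (by positivity) h2 (by positivity)

theorem rad_le {S : Finset ℕ} (hS : ∀ ℓ ∈ S, 1 ≤ ℓ) {u : ℤ}
    (hu : ∀ ℓ : ℕ, ℓ.Prime → (ℓ : ℤ) ∣ u → ℓ ∈ S) :
    Pool.Agent.W232.FC.rad u.natAbs ≤ ∏ ℓ ∈ S, ℓ := by
  unfold Pool.Agent.W232.FC.rad
  refine Finset.prod_le_prod_of_subset_of_one_le' (fun ℓ hℓ => ?_) fun ℓ hℓ _ => hS ℓ hℓ
  exact hu ℓ (Nat.prime_of_mem_primeFactors hℓ)
    (Int.natCast_dvd.2 (Nat.dvd_of_mem_primeFactors hℓ))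

theorem sols_finite (S : Finset ℕ) (N : ℕ) : (Solutions S N).Finite := by
  refine Set.Finite.subset ((Set.finite_Icc (-(N : ℤ)) N).prod
    ((Set.finite_Icc (-(N : ℤ)) N).prod (Set.finite_Icc (-(N : ℤ)) N))) ?_
  rintro ⟨x, y, z⟩ ⟨-, h1, h2, h3, -⟩
  simp only [abs_le] at h1 h2 h3
  simp only [Set.mem_prod, Set.mem_Icc]
  exact ⟨h1, h2, h3⟩

theorem main_general (hDG : DarmonGranville) (S : Finset ℕ) (hS : ∀ ℓ ∈ S, 1 ≤ ℓ)
    (ε : ℝ) (hε : 0 < ε) : ∃ C : ℝ, ∀ N : ℕ, 1 ≤ N →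
      ((Solutions S N).ncard : ℝ) ≤ C * (N : ℝ) ^ ε := by
  classical
  obtain ⟨δ, hδ, X₀, hX₀⟩ := Pool.Agent.W232.FC.sparseC ε hε
  obtain ⟨R, hR⟩ : ∃ R : ℕ, 1 / δ ≤ R := exists_nat_ge _
  have hR0 : (0 : ℝ) < R := lt_of_lt_of_le (by positivity) hR
  have hR1 : 1 ≤ R := by exact_mod_cast hR0
  have hRδ : (1 : ℝ) / R ≤ δ := by
    rw [div_le_iff₀ hR0]
    rw [div_le_iff₀ hδ] at hR
    linarith
  obtain ⟨N₁, hN₁⟩ : ∃ N₁ : ℕ, ((∏ ℓ ∈ S, ℓ : ℕ) : ℝ) ^ ((1 : ℝ) / δ) ≤ N₁ := exists_nat_ge _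
  let N₂ : ℕ := X₀ + N₁ + 1
  let F := {t : ℤ × ℤ × ℤ | t.1 + t.2.1 = t.2.2 ∧ IsCoprime t.1 t.2.1 ∧
    ∃ p q r : ℕ, 2 ≤ p ∧ 2 ≤ q ∧ 2 ≤ r ∧ (1 : ℚ) / p + 1 / q + 1 / r < 1 ∧
      SPower S p t.1 ∧ SPower S q t.2.1 ∧ SPower S r t.2.2 ∧ p < R ∧ q < R ∧ r < R}
  have hF : F.Finite := finite_bounded hDG S hS R
  refine ⟨F.ncard + 1 + (Solutions S N₂).ncard, fun N hN => ?_⟩
  have hN' : (1 : ℝ) ≤ N := by exact_mod_cast hN
  have hNε : (1 : ℝ) ≤ (N : ℝ) ^ ε := Real.one_le_rpow hN' hε.le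
  by_cases hNN : N ≤ N₂
  · have h1 : Solutions S N ⊆ Solutions S N₂ := by
      rintro t ⟨h1, h2, h3, h4, h5⟩
      have h6 : (N : ℤ) ≤ N₂ := by exact_mod_cast hNN
      exact ⟨h1, h2.trans h6, h3.trans h6, h4.trans h6, h5⟩
    have h2 : ((Solutions S N).ncard : ℝ) ≤ (Solutions S N₂).ncard := by
      exact_mod_cast Set.ncard_le_ncard h1 (sols_finite S N₂)
    have h3 : (0 : ℝ) ≤ F.ncard := by positivity
    have h4 : (0 : ℝ) ≤ (Solutions S N₂).ncard := by positivity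
    nlinarith
  · push Not at hNN
    have hX : X₀ ≤ N := by omega
    have h1 := hX₀ N hX
    have hSN : ((∏ ℓ ∈ S, ℓ : ℕ) : ℝ) ≤ (N : ℝ) ^ δ := by
      have h2 : ((∏ ℓ ∈ S, ℓ : ℕ) : ℝ) ^ ((1 : ℝ) / δ) ≤ N := by
        refine hN₁.trans ?_
        have : N₁ ≤ N := by omega
        exact_mod_cast this
      have h3 := Real.rpow_le_rpow (by positivity) h2 hδ.le
      rwa [← Real.rpow_mul (by positivity), one_div_mul_cancel hδ.ne', Real.rpow_one] at h3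
    have hsub : Solutions S N ⊆ F ∪ Pool.Agent.W232.FC.SolC N ((N : ℝ) ^ δ) := by
      rintro ⟨A, B, C⟩ ⟨hsum, hA', hB', hC', hcop, p, q, r, hp, hq, hr, hpqr, hA, hB, hC⟩
      simp only at hsum hA' hB' hC' hcop hA hB hC
      by_cases hlt : p < R ∧ q < R ∧ r < R
      · left
        exact ⟨hsum, hcop, p, q, r, hp, hq, hr, hpqr, hA, hB, hC, hlt.1, hlt.2.1, hlt.2.2⟩
      · right
        obtain ⟨hA0, u, x, rfl, hu⟩ := hA
        obtain ⟨hB0, v, y, rfl, hv⟩ := hB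
        obtain ⟨hC0, w, z, rfl, hw⟩ := hC
        have nz : ∀ {u x : ℤ} {p : ℕ}, 2 ≤ p → u * x ^ p ≠ 0 → u ≠ 0 ∧ x ≠ 0 := by
          intro u x p hp h
          refine ⟨by rintro rfl; simp at h, ?_⟩
          rintro rfl
          apply h
          rw [zero_pow (by omega), mul_zero]
        have nA := nz hp hA0
        have nB := nz hq hB0
        have nC := nz hr hC0
        have hle : ∀ {m : ℤ}, |m| ≤ N → m.natAbs ≤ N := by
          intro m hm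
          rw [Int.abs_eq_natAbs] at hm
          exact_mod_cast hm
        have hrad : ∀ {u : ℤ}, u ≠ 0 → (∀ ℓ : ℕ, ℓ.Prime → (ℓ : ℤ) ∣ u → ℓ ∈ S) →
            (Pool.Agent.W232.FC.rad u.natAbs : ℝ) ≤ (N : ℝ) ^ δ := by
          intro u _ hu
          refine le_trans ?_ hSN
          exact_mod_cast rad_le hS hu
        have hmono : (N : ℝ) ^ ((1 : ℝ) / R) ≤ (N : ℝ) ^ δ :=
          Real.rpow_le_rpow_of_exponent_le hN' hRδ
        refine ⟨hsum, hle hA', hle hB', hle hC', u, v, w, x, y, z, p, q, r, nA.1, nB.1, nC.1,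
          nA.2, nB.2, nC.2, hp, hq, hr, rfl, hrad nA.1 hu, hrad nB.1 hv, hrad nC.1 hw, ?_⟩
        by_cases h1 : R ≤ p
        · left
          exact (base_le hR1 h1 hA0 hA').trans hmono
        · by_cases h2 : R ≤ q
          · right; left
            exact (base_le hR1 h2 hB0 hB').trans hmono
          · right; right
            refine (base_le hR1 ?_ hC0 hC').trans hmono
            by_contra h3
            exact hlt ⟨not_le.1 h1, not_le.1 h2, not_le.1 h3⟩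
    have h2 : ((Solutions S N).ncard : ℝ) ≤ F.ncard +
        (Pool.Agent.W232.FC.SolC N ((N : ℝ) ^ δ)).ncard := by
      have h3 := Set.ncard_le_ncard hsub (hF.union (Pool.Agent.W232.FC.SolC_finite _ _))
      exact_mod_cast h3.trans (Set.ncard_union_le _ _)
    have h3 : (0 : ℝ) ≤ F.ncard := by positivity
    have h4 : (0 : ℝ) ≤ (Solutions S N₂).ncard := by positivity
    nlinarith

theorem eq_three {p q r : ℕ} (hp : p.Prime) (hq : q.Prime) (hr : r.Prime)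
    (h : (1 : ℚ) / p + 1 / q + 1 / r = 1) : p = 3 ∧ q = 3 ∧ r = 3 := by
  have hp0 : (p : ℚ) ≠ 0 := by exact_mod_cast hp.ne_zero
  have hq0 : (q : ℚ) ≠ 0 := by exact_mod_cast hq.ne_zero
  have hr0 : (r : ℚ) ≠ 0 := by exact_mod_cast hr.ne_zero
  have h1 : (q : ℚ) * r + p * r + p * q = p * q * r := by
    field_simp at h
    linarith
  have h2 : q * r + p * r + p * q = p * q * r := by exact_mod_cast h1
  have hpqr : p = q ∨ p = r := by
    have h3 : p ∣ q * r := by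
      have h4 : p ∣ q * r + (p * r + p * q) := ⟨q * r, by rw [← add_assoc, h2]; ring⟩
      exact (Nat.dvd_add_iff_left ⟨r + q, by ring⟩).2 h4
    rcases hp.dvd_mul.1 h3 with h4 | h4
    · exact Or.inl ((Nat.prime_dvd_prime_iff_eq hp hq).1 h4)
    · exact Or.inr ((Nat.prime_dvd_prime_iff_eq hp hr).1 h4)
  have hqpr : q = p ∨ q = r := by
    have h3 : q ∣ p * r := by
      have h4 : q ∣ p * r + (q * r + p * q) := ⟨p * r, by
        rw [show p * r + (q * r + p * q) = q * r + p * r + p * q by ring, h2]; ring⟩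
      exact (Nat.dvd_add_iff_left ⟨r + p, by ring⟩).2 h4
    rcases hq.dvd_mul.1 h3 with h4 | h4
    · exact Or.inl ((Nat.prime_dvd_prime_iff_eq hq hp).1 h4)
    · exact Or.inr ((Nat.prime_dvd_prime_iff_eq hq hr).1 h4)
  have hrpq : r = p ∨ r = q := by
    have h3 : r ∣ p * q := by
      have h4 : r ∣ p * q + (q * r + p * r) := ⟨p * q, by
        rw [show p * q + (q * r + p * r) = q * r + p * r + p * q by ring, h2]; ring⟩
      exact (Nat.dvd_add_iff_left ⟨q + p, by ring⟩).2 h4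
    rcases hr.dvd_mul.1 h3 with h4 | h4
    · exact Or.inl ((Nat.prime_dvd_prime_iff_eq hr hp).1 h4)
    · exact Or.inr ((Nat.prime_dvd_prime_iff_eq hr hq).1 h4)
  have h5 : p = q ∧ p = r := by
    rcases hpqr with rfl | rfl
    · rcases hrpq with rfl | rfl <;> exact ⟨rfl, rfl⟩
    · rcases hqpr with rfl | rfl <;> exact ⟨rfl, rfl⟩
  obtain ⟨rfl, rfl⟩ := h5
  have h6 : (p : ℚ) = 3 := by
    have h7 : (p : ℚ) * p * (p - 3) = 0 := by linarith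
    have h8 := (mul_eq_zero.1 h7).resolve_left (mul_ne_zero hp0 hp0)
    linarith
  have h7 : p = 3 := by exact_mod_cast h6
  exact ⟨h7, h7, h7⟩

theorem spower_nat {p x : ℕ} (hx : 0 < x) (S : Finset ℕ) : SPower S p ((x ^ p : ℕ) : ℤ) := by
  refine ⟨by positivity, 1, x, by push_cast; ring, fun ℓ hℓ h => ?_⟩
  exfalso
  have h1 : (ℓ : ℤ) ∣ ((1 : ℕ) : ℤ) := by exact_mod_cast h
  rw [Int.natCast_dvd_natCast, Nat.dvd_one] at h1
  exact hℓ.one_lt.ne' h1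

theorem fc_maps (S : Finset ℕ) (N : ℕ) {v : ℕ × ℕ × ℕ} (hv : v ∈ FermatCatalan N) :
    ((v.1 : ℤ), (v.2.1 : ℤ), (v.2.2 : ℤ)) ∈ Solutions S N := by
  obtain ⟨hN, x, y, z, p, q, r, hx, hy, hz, hg, hp, hq, hr, hpqr, heq, rfl⟩ := hv
  simp only at hN
  have habs : ∀ m : ℕ, |((m : ℕ) : ℤ)| = m := fun m => Nat.abs_cast m
  refine ⟨?_, ?_, ?_, ?_, ?_, p, q, r, hp.two_le, hq.two_le, hr.two_le, ?_, spower_nat hx S,
    spower_nat hy S, spower_nat hz S⟩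
  · change ((x ^ p : ℕ) : ℤ) + ((y ^ q : ℕ) : ℤ) = ((z ^ r : ℕ) : ℤ)
    rw [← heq, Nat.cast_add]
  · change |((x ^ p : ℕ) : ℤ)| ≤ N
    rw [habs]
    exact_mod_cast (by omega : x ^ p ≤ N)
  · change |((y ^ q : ℕ) : ℤ)| ≤ N
    rw [habs]
    exact_mod_cast (by omega : y ^ q ≤ N)
  · change |((z ^ r : ℕ) : ℤ)| ≤ N
    rw [habs]
    exact_mod_cast hN
  · change IsCoprime ((x ^ p : ℕ) : ℤ) ((y ^ q : ℕ) : ℤ)
    rw [Nat.isCoprime_iff_coprime]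
    refine Nat.Coprime.pow _ _ ?_
    by_contra hcon
    obtain ⟨ℓ, hℓ, hd⟩ := Nat.exists_prime_and_dvd hcon
    have d1 : ℓ ∣ x := hd.trans (Nat.gcd_dvd_left _ _)
    have d2 : ℓ ∣ y := hd.trans (Nat.gcd_dvd_right _ _)
    have d3 : ℓ ∣ z ^ r := by
      rw [← heq]
      exact (dvd_pow d1 hp.ne_zero).add (dvd_pow d2 hq.ne_zero)
    have d4 : ℓ ∣ z := hℓ.dvd_of_dvd_pow d3
    have d5 : ℓ ∣ Nat.gcd x (Nat.gcd y z) := Nat.dvd_gcd d1 (Nat.dvd_gcd d2 d4)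
    rw [hg, Nat.dvd_one] at d5
    exact hℓ.one_lt.ne' d5
  · refine lt_of_le_of_ne hpqr fun h => ?_
    obtain ⟨rfl, rfl, rfl⟩ := eq_three hp hq hr h
    exact fermatLastTheoremThree x y z hx.ne' hy.ne' hz.ne' heq

/-- The number of solutions of the Fermat-Catalan equation up to `N` is `O (N ^ ε)` for every
`ε > 0`; the same holds with `S`-unit coefficients for every finite set `S` of primes. -/
theorem result (hDG : DarmonGranville) :
    (∀ ε : ℝ, 0 < ε → ∃ C : ℝ, ∀ N : ℕ, 1 ≤ N →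
      (FermatCatalan N).Finite ∧ ((FermatCatalan N).ncard : ℝ) ≤ C * (N : ℝ) ^ ε) ∧
    (∀ S : Finset ℕ, (∀ ℓ ∈ S, ℓ.Prime) → ∀ ε : ℝ, 0 < ε → ∃ C : ℝ, ∀ N : ℕ, 1 ≤ N →
      (Solutions S N).Finite ∧ ((Solutions S N).ncard : ℝ) ≤ C * (N : ℝ) ^ ε) := by
  have hgen : ∀ S : Finset ℕ, (∀ ℓ ∈ S, ℓ.Prime) → ∀ ε : ℝ, 0 < ε → ∃ C : ℝ, ∀ N : ℕ, 1 ≤ N →
      (Solutions S N).Finite ∧ ((Solutions S N).ncard : ℝ) ≤ C * (N : ℝ) ^ ε := by
    intro S hS ε hε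
    obtain ⟨C, hC⟩ := main_general hDG S (fun ℓ hℓ => (hS ℓ hℓ).one_le) ε hε
    exact ⟨C, fun N hN => ⟨sols_finite S N, hC N hN⟩⟩
  refine ⟨fun ε hε => ?_, hgen⟩
  obtain ⟨C, hC⟩ := hgen ∅ (by simp) ε hε
  refine ⟨C, fun N hN => ?_⟩
  let f : ℕ × ℕ × ℕ → ℤ × ℤ × ℤ := fun v => ((v.1 : ℤ), (v.2.1 : ℤ), (v.2.2 : ℤ))
  have hf : Function.Injective f := by
    rintro ⟨a, b, c⟩ ⟨a', b', c'⟩ h
    simp only [f, Prod.mk.injEq, Nat.cast_inj] at h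
    obtain ⟨rfl, rfl, rfl⟩ := h
    rfl
  have hmaps : ∀ v ∈ FermatCatalan N, f v ∈ Solutions ∅ N := fun v hv => fc_maps ∅ N hv
  obtain ⟨h1, h2⟩ := hC N hN
  refine ⟨Set.Finite.of_injOn hmaps hf.injOn h1, le_trans ?_ h2⟩
  exact_mod_cast Set.ncard_le_ncard_of_injOn f hmaps hf.injOn h1

end Pool.Agent.Results.MP_509488_nt.SolutionCount
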